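import Pool.Agent.Y458.DP.Par

/-!
# Which classes are represented by the solutions of dimensionality problems

If a class `P` is represented exactly by the class of solutions of an `n`-dimensionality problem
then every Turing degree has infinitely many members in `P` or an even number of members, unless
`P` consists of one computable function; if `n` is the dimension of the ordering then every Turing
degree has infinitely many members or a multiple of `n!` members. In particular the class with `k`
computable members is not represented for any odd `k ≥ 3`.
-/

set_option autoImplicit false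

namespace Pool.Agent.Results.MP_02e4ca_lc.ParityAndFactorialLaws

open Pool.Agent.Helper539.Dim

/-- the members of `P` of the same Turing degree as `f` -/
def SameDegree (P : Set (ℕ → ℕ)) (f : ℕ → ℕ) : Set (ℕ → ℕ) :=
  {h ∈ P | TuringEquivalent ((h : ℕ → ℕ) : ℕ →. ℕ) (f : ℕ →. ℕ)}

/-- (1) Let `P` be represented by the solutions of the `n`-dimensionality problem for `(A, R)`. Then
`P` consists of one computable function, or every Turing degree has infinitely many members or an
even number of members in `P`; and if the `m`-dimensionality problem has no solution for `m < n`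
then every Turing degree has infinitely many members or a multiple of `n!` members in `P`.
(2) For every odd `k ≥ 3` there is a computably bounded class with exactly `k` members, all of them
computable, that is not represented by the solutions of any dimensionality problem. -/
theorem result :
    (∀ (P : Set (ℕ → ℕ)) (A : Set ℕ) (R : ℕ → ℕ → Prop) (n : ℕ), IsComputablePoset A R → 1 ≤ n →
      Represents P (solutions A R n) →
      ((∃ f : ℕ → ℕ, Computable f ∧ P = {f}) ∨
        ∀ f : ℕ → ℕ, (SameDegree P f).Infinite ∨ Even (SameDegree P f).ncard) ∧
      ((∀ m, 1 ≤ m → m < n → solutions A R m = ∅) →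
        ∀ f : ℕ → ℕ, (SameDegree P f).Infinite ∨ n.factorial ∣ (SameDegree P f).ncard)) ∧
    (∀ k : ℕ, 3 ≤ k → Odd k → ∃ P : Set (ℕ → ℕ), IsCBClass P ∧ P.ncard = k ∧
      (∀ f ∈ P, Computable f) ∧
      ∀ (A : Set ℕ) (R : ℕ → ℕ → Prop) (n : ℕ), IsComputablePoset A R → 1 ≤ n →
        ¬ Represents P (solutions A R n)) := by
  refine ⟨fun P A R n hAR hn h => ⟨Y458.DP.parity_law hAR hn h,
    fun hdim f => Y458.DP.factorial_law hdim h f⟩, fun k hk hodd => ?_⟩
  · refine ⟨paths (Y458.DP.Tk k), Y458.DP.cb_paths (by omega), Y458.DP.ncard_paths k, ?_,
      fun A R n hAR hn => Y458.DP.odd_not hk hodd A R n hAR hn⟩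
    intro f hf
    obtain ⟨c, _, rfl⟩ := Y458.DP.mem_pk f hf
    exact Y458.DP.pk_computable c

end Pool.Agent.Results.MP_02e4ca_lc.ParityAndFactorialLaws
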